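import Pool.Agent.Results.MP_b9b46b_al.LGEquiv

/-!
# The local-global property of f-rings with bounded inversion

Let `A` be an f-ring with bounded inversion; nilpotent elements are allowed.  The local-global
property, quadratic unit substitution, unit substitution with any fixed even exponent, positive
linear unit substitution, cleanness and total disconnectedness of the maximal spectrum are all
equivalent.
-/

set_option autoImplicit false

namespace Pool.Agent.Results.MP_b9b46b_al.CleanSpectrum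

open Pool.Agent.Results.MP_b9b46b_al.LGEquiv

universe u

/-- Condition (b) with the exponent `k` in the place of `2`. -/
def HasPowerUnits (A : Type u) [CommRing A] [Lattice A] (k : ℕ) : Prop :=
  ∀ a b : A, 0 ≤ a → 0 ≤ b → Ideal.span {a} ⊔ Ideal.span {b} = ⊤ → ∃ w : A, IsUnit (a - b * w ^ k)

/-- The linear form of condition (b): there is `w ≥ 0` such that `a - b w` is a unit. -/
def HasPositiveUnits (A : Type u) [CommRing A] [Lattice A] : Prop :=
  ∀ a b : A, 0 ≤ a → 0 ≤ b → Ideal.span {a} ⊔ Ideal.span {b} = ⊤ →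
    ∃ w : A, 0 ≤ w ∧ IsUnit (a - b * w)

/-- `A` is an exchange ring. -/
def IsExchange (A : Type u) [CommRing A] : Prop :=
  ∀ a : A, ∃ e : A, e * e = e ∧ a ∣ e ∧ 1 - a ∣ 1 - e

/-- `A` is clean: every element is the sum of an idempotent and a unit. -/
def IsClean (A : Type u) [CommRing A] : Prop :=
  ∀ a : A, ∃ e w : A, e * e = e ∧ IsUnit w ∧ a = e + w

/-- The idempotents separate the maximal ideals. -/
def IdempotentsSeparate (A : Type u) [CommRing A] : Prop :=
  ∀ M N : Ideal A, M.IsMaximal → N.IsMaximal → M ≠ N → ∃ e : A, e * e = e ∧ e ∈ M ∧ e ∉ N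

section ring

variable {A : Type u} [CommRing A]

theorem one_not_mem {M : Ideal A} (hM : M.IsMaximal) : (1 : A) ∉ M :=
  fun h => hM.ne_top ((Ideal.eq_top_iff_one _).2 h)

theorem dvd_of_forall {a e : A} (he : e * e = e)
    (h : ∀ M : Ideal A, M.IsMaximal → a ∈ M → e ∈ M) : a ∣ e := by
  have htop : Ideal.span {a} ⊔ Ideal.span {1 - e} = ⊤ := by
    by_contra hne
    obtain ⟨M, hM, hle⟩ := Ideal.exists_le_maximal _ hne
    have h1 : a ∈ M := hle (Ideal.mem_sup_left (Ideal.mem_span_singleton_self _))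
    have h2 : 1 - e ∈ M := hle (Ideal.mem_sup_right (Ideal.mem_span_singleton_self _))
    exact one_not_mem hM (by simpa using M.add_mem h2 (h M hM h1))
  rw [Ideal.eq_top_iff_one, Submodule.mem_sup] at htop
  obtain ⟨y, hy, z, hz, hyz⟩ := htop
  obtain ⟨c, rfl⟩ := Ideal.mem_span_singleton'.1 hy
  obtain ⟨d, rfl⟩ := Ideal.mem_span_singleton'.1 hz
  exact ⟨c * e, by linear_combination (-e) * hyz - d * he⟩

theorem not_both {M : Ideal A} (hM : M.IsMaximal) {e : A} (h1 : e ∈ M) (h2 : 1 - e ∈ M) :
    False := one_not_mem hM (by simpa using M.add_mem h2 h1)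

theorem one_sub_mem {M : Ideal A} (hM : M.IsMaximal) {e : A} (he : e * e = e) (h : e ∉ M) :
    1 - e ∈ M := by
  have h1 : e * (1 - e) ∈ M := by
    have : e * (1 - e) = 0 := by linear_combination -he
    rw [this]
    exact M.zero_mem
  exact (hM.isPrime.mem_or_mem h1).resolve_left h

theorem clean_of_exchange (h : IsExchange A) : IsClean A := by
  intro a
  obtain ⟨e, he, ⟨x, hx⟩, ⟨y, hy⟩⟩ := h a
  refine ⟨1 - e, a - (1 - e), by linear_combination he, ?_, by ring⟩
  refine IsUnit.of_mul_eq_one (x * e - y * (1 - e)) ?_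
  linear_combination (2 + x + y) * he - e * hx - (1 - e) * hy

theorem exchange_of_clean (h : IsClean A) : IsExchange A := by
  intro a
  obtain ⟨e, w, he, hw, rfl⟩ := h a
  obtain ⟨t, ht⟩ := hw.exists_right_inv
  refine ⟨1 - e, by linear_combination he, ⟨t * (1 - e), ?_⟩, ⟨-(t * e), ?_⟩⟩
  · linear_combination (-(1 - e)) * ht + t * he
  · linear_combination (-e) * ht - t * he

theorem separate_of_exchange (h : IsExchange A) : IdempotentsSeparate A := by
  intro M N hM hN hMN
  have htop : M ⊔ N = ⊤ := hM.coprime_of_ne hN hMN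
  rw [Ideal.eq_top_iff_one, Submodule.mem_sup] at htop
  obtain ⟨a, ha, b, hb, hab⟩ := htop
  obtain ⟨e, he, ⟨x, hx⟩, ⟨y, hy⟩⟩ := h a
  refine ⟨e, he, ?_, fun heN => ?_⟩
  · rw [hx]
    exact M.mul_mem_right _ ha
  · refine not_both hN heN ?_
    rw [hy]
    refine N.mul_mem_right _ ?_
    have : 1 - a = b := by rw [← hab]; ring
    rw [this]
    exact hb

/-- A product of finitely many idempotents, one for each element of a cover. -/
theorem exchange_of_separate (h : IdempotentsSeparate A) : IsExchange A := by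
  intro a
  -- step one: for a maximal ideal `N` containing `1 - a` an idempotent outside `N` that lies in
  -- all the maximal ideals containing `a`
  have step : ∀ N : Ideal A, N.IsMaximal → 1 - a ∈ N →
      ∃ e : A, e * e = e ∧ e ∉ N ∧ ∀ M : Ideal A, M.IsMaximal → a ∈ M → e ∈ M := by
    intro N hN haN
    -- the ideal of all elements annihilated modulo `a` by an idempotent outside `N`
    let J : Ideal A :=
      { carrier := {c | ∃ e : A, e * e = e ∧ e ∉ N ∧ a ∣ c * e}
        zero_mem' := ⟨1, by ring, one_not_mem hN, by simp⟩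
        add_mem' := by
          rintro c d ⟨e, he, heN, hc⟩ ⟨f, hf, hfN, hd⟩
          refine ⟨e * f, by linear_combination f * f * he + e * hf,
            fun h' => (hN.isPrime.mem_or_mem h').elim heN hfN, ?_⟩
          have e1 : (c + d) * (e * f) = (c * e) * f + (d * f) * e := by ring
          rw [e1]
          exact dvd_add (hc.mul_right _) (hd.mul_right _)
        smul_mem' := by
          rintro r c ⟨e, he, heN, hc⟩
          refine ⟨e, he, heN, ?_⟩
          rw [smul_eq_mul, mul_assoc]
          exact hc.mul_left _ }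
    have haJ : a ∈ J := ⟨1, by ring, one_not_mem hN, by simp⟩
    have hJ : J = ⊤ := by
      by_contra hne
      obtain ⟨M, hM, hJM⟩ := Ideal.exists_le_maximal J hne
      have haM : a ∈ M := hJM haJ
      have hMN : M ≠ N := by
        rintro rfl
        exact not_both hM haM haN
      obtain ⟨e, he, heM, heN⟩ := h M N hM hN hMN
      have h1 : 1 - e ∈ J := by
        refine ⟨e, he, heN, ?_⟩
        have : (1 - e) * e = 0 := by linear_combination -he
        rw [this]
        exact dvd_zero _
      exact not_both hM heM (hJM h1)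
    obtain ⟨e, he, heN, hae⟩ : (1 : A) ∈ J := by rw [hJ]; trivial
    rw [one_mul] at hae
    refine ⟨e, he, heN, fun M _ haM => ?_⟩
    obtain ⟨x, hx⟩ := hae
    rw [hx]
    exact M.mul_mem_right _ haM
  -- step two
  let J : Ideal A :=
    { carrier := {c | ∃ e : A, e * e = e ∧ 1 - a ∣ c * (1 - e) ∧
        ∀ M : Ideal A, M.IsMaximal → a ∈ M → e ∈ M}
      zero_mem' := ⟨0, by ring, by simp, fun M _ _ => M.zero_mem⟩
      add_mem' := by
        rintro c d ⟨e, he, hc, he'⟩ ⟨f, hf, hd, hf'⟩
        refine ⟨1 - (1 - e) * (1 - f), ?_, ?_, fun M hM haM => ?_⟩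
        · linear_combination (1 - f) * (1 - f) * he + (1 - e) * hf
        · have e1 : (c + d) * (1 - (1 - (1 - e) * (1 - f))) =
              (c * (1 - e)) * (1 - f) + (d * (1 - f)) * (1 - e) := by ring
          rw [e1]
          exact dvd_add (hc.mul_right _) (hd.mul_right _)
        · have e1 : 1 - (1 - e) * (1 - f) = e + f * (1 - e) := by ring
          rw [e1]
          exact M.add_mem (he' M hM haM) (M.mul_mem_right _ (hf' M hM haM))
      smul_mem' := by
        rintro r c ⟨e, he, hc, he'⟩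
        refine ⟨e, he, ?_, he'⟩
        rw [smul_eq_mul, mul_assoc]
        exact hc.mul_left _ }
  have haJ : 1 - a ∈ J := ⟨0, by ring, by simp, fun M _ _ => M.zero_mem⟩
  have hJ : J = ⊤ := by
    by_contra hne
    obtain ⟨N, hN, hJN⟩ := Ideal.exists_le_maximal J hne
    obtain ⟨e, he, heN, he'⟩ := step N hN (hJN haJ)
    have h1 : e ∈ J := by
      refine ⟨e, he, ?_, he'⟩
      have : e * (1 - e) = 0 := by linear_combination -he
      rw [this]
      exact dvd_zero _
    exact heN (hJN h1)
  obtain ⟨e, he, hae, he'⟩ : (1 : A) ∈ J := by rw [hJ]; trivial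
  rw [one_mul] at hae
  exact ⟨e, he, dvd_of_forall he he', hae⟩

/-- Exchange rings have the local-global property. -/
theorem lg_of_exchange (h : IsExchange A) : HasLG A := by
  intro n _ f hloc
  have hstep : ∀ M : Ideal A, M.IsMaximal →
      ∃ (e : A) (y : Fin n → A), e * e = e ∧ MvPolynomial.eval y f ∣ e ∧ e ∉ M := by
    intro M hM
    obtain ⟨y, hy⟩ := exists_point f M (hloc M)
    obtain ⟨r, m, hm, hrm⟩ := hM.exists_inv hy
    obtain ⟨e, he, h1, h2⟩ := h (r * MvPolynomial.eval y f)
    refine ⟨e, y, he, (dvd_mul_left _ _).trans h1, fun heM => ?_⟩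
    refine not_both hM heM ?_
    obtain ⟨k, hk⟩ := h2
    rw [hk]
    refine M.mul_mem_right _ ?_
    have : 1 - r * MvPolynomial.eval y f = m := by rw [← hrm]; ring
    rw [this]
    exact hm
  let J : Ideal A :=
    { carrier := {a | ∃ (e : A) (y : Fin n → A),
        e * e = e ∧ MvPolynomial.eval y f ∣ e ∧ a * e = a}
      zero_mem' := ⟨0, 0, by ring, dvd_zero _, by ring⟩
      add_mem' := by
        rintro a b ⟨e, y, he, ⟨c, hc⟩, hae⟩ ⟨e', z, he', ⟨d, hd⟩, hbe⟩
        refine ⟨e + (1 - e) * e', fun i => e * y i + (1 - e) * z i, ?_, ?_, ?_⟩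
        · linear_combination (1 - e') * he + (1 - e) ^ 2 * he'
        · rw [eval_glue f he]
          refine ⟨e * c + (1 - e) * d, ?_⟩
          linear_combination (-(e + 1) - e' + (MvPolynomial.eval y f * d
            + MvPolynomial.eval z f * c)) * he + e ^ 2 * hc + (1 - e) ^ 2 * hd
        · linear_combination (1 - e') * hae + (1 - e) * hbe
      smul_mem' := by
        rintro c a ⟨e, y, he, hye, hae⟩
        refine ⟨e, y, he, hye, ?_⟩
        rw [smul_eq_mul, mul_assoc, hae] }
  have hJ : J = ⊤ := by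
    by_contra hne
    obtain ⟨M, hM, hJM⟩ := Ideal.exists_le_maximal J hne
    obtain ⟨e, y, he, hye, heM⟩ := hstep M hM
    exact heM (hJM ⟨e, y, he, hye, he⟩)
  obtain ⟨e, y, -, hye, h1e⟩ : (1 : A) ∈ J := by rw [hJ]; trivial
  rw [one_mul] at h1e
  exact ⟨y, isUnit_of_dvd_one (h1e ▸ hye)⟩

/-! ### The maximal spectrum -/

instance compactSpace : CompactSpace (MaximalSpectrum A) := by
  have hind : Topology.IsInducing (@MaximalSpectrum.toPrimeSpectrum A _) := ⟨rfl⟩
  rw [← isCompact_univ_iff, hind.isCompact_iff]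
  rw [isCompact_iff_finite_subcover]
  intro ι U hU hcov
  have huniv : (Set.univ : Set (PrimeSpectrum A)) ⊆ ⋃ i, U i := by
    intro x _
    obtain ⟨M, hM, hle⟩ := Ideal.exists_le_maximal x.asIdeal x.isPrime.ne_top
    have h1 : MaximalSpectrum.toPrimeSpectrum (⟨M, hM⟩ : MaximalSpectrum A) ∈ ⋃ i, U i :=
      hcov ⟨⟨M, hM⟩, Set.mem_univ _, rfl⟩
    obtain ⟨i, hi⟩ := Set.mem_iUnion.1 h1
    refine Set.mem_iUnion.2 ⟨i, ?_⟩
    have h2 : x ⤳ MaximalSpectrum.toPrimeSpectrum (⟨M, hM⟩ : MaximalSpectrum A) := by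
      rw [← PrimeSpectrum.le_iff_specializes]
      exact hle
    exact h2.mem_open (hU i) hi
  obtain ⟨t, ht⟩ := isCompact_univ.elim_finite_subcover U hU huniv
  exact ⟨t, (Set.subset_univ _).trans ht⟩

/-- The set of the maximal ideals that do not contain `a`. -/
def dset (a : A) : Set (MaximalSpectrum A) := {M | a ∉ M.asIdeal}

theorem isOpen_dset (a : A) : IsOpen (dset a) :=
  (PrimeSpectrum.isOpen_basicOpen (a := a)).preimage MaximalSpectrum.toPrimeSpectrum_continuous

end ring

section closed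

variable {A : Type u} [CommRing A]

theorem mem_of_closed {S : Set (MaximalSpectrum A)} (hS : IsClosed S) {M : MaximalSpectrum A}
    (hM : ∀ x : A, (∀ N ∈ S, x ∈ N.asIdeal) → x ∈ M.asIdeal) : M ∈ S := by
  obtain ⟨t, ht, rfl⟩ := isClosed_induced_iff.1 hS
  obtain ⟨s, rfl⟩ := (PrimeSpectrum.isClosed_iff_zeroLocus t).1 ht
  intro x hx
  exact hM x fun N hN => hN hx

theorem isUnit_of_forall {x : A} (hx : ∀ M : Ideal A, M.IsMaximal → x ∉ M) : IsUnit x := by
  by_contra hxu
  obtain ⟨M, hM, hxM⟩ := exists_max_ideal_of_mem_nonunits hxu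
  exact hx M hM hxM

theorem mem_of_mul_self {M : Ideal A} (hM : M.IsMaximal) {x : A} (h : x * x ∈ M) : x ∈ M :=
  (hM.isPrime.mem_or_mem h).elim id id

theorem separated_of_separate (h : IdempotentsSeparate A) :
    TotallySeparatedSpace (MaximalSpectrum A) := by
  rw [totallySeparatedSpace_iff_exists_isClopen]
  intro M N hMN
  obtain ⟨e, he, heM, heN⟩ := h M.asIdeal N.asIdeal M.isMaximal N.isMaximal
    fun h' => hMN (MaximalSpectrum.ext h')
  have hcompl : (dset (1 - e))ᶜ = dset e := by
    ext L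
    simp only [dset, Set.mem_compl_iff, Set.mem_ofPred_eq, not_not]
    constructor
    · intro h1 h2
      exact not_both L.isMaximal h2 h1
    · intro h1
      exact one_sub_mem L.isMaximal he h1
  refine ⟨dset (1 - e), ⟨?_, isOpen_dset _⟩, ?_, ?_⟩
  · rw [← isOpen_compl_iff, hcompl]
    exact isOpen_dset e
  · intro h1
    exact not_both M.isMaximal heM h1
  · rw [hcompl]
    exact heN

end closed

section fring

variable {A : Type u} [CommRing A] [Lattice A] (h : IsFRing A) (hb : BoundedInversion A)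

include h hb

/-- A unit of the form `a - c`, `a, c ≥ 0`, gives an idempotent. -/
theorem idem_of_sub {a c : A} (ha : 0 ≤ a) (hc : 0 ≤ c) (hu : IsUnit (a - c)) :
    ∃ e : A, e * e = e ∧ (∀ M : Ideal A, M.IsMaximal → a ∈ M → e ∈ M) ∧
      ∀ M : Ideal A, M.IsMaximal → c ∈ M → 1 - e ∈ M := by
  have := isOrderedRing_of_isFRing h
  obtain ⟨t, ht⟩ := hu.exists_right_inv
  set v : A := a - c with hv
  set p : A := v ⊔ 0 with hp
  set q : A := (-v) ⊔ 0 with hq
  have hpq : p * q = 0 := sup_mul_sup h v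
  have hvpq : v = p - q := sup_sub_sup h v
  have hp0 : 0 ≤ p := le_sup_right
  have hq0 : 0 ≤ q := le_sup_right
  have hpa : p ≤ a := sup_le (by rw [hv]; exact sub_le_self a hc) ha
  have hqc : q ≤ c := by
    refine sup_le ?_ hc
    rw [hv, neg_sub]
    exact sub_le_self c ha
  have h1 : (p * p + q * q) * (t * t) = 1 := by
    have h2 : v * v = p * p + q * q := by
      rw [hvpq]; linear_combination (-2) * hpq
    rw [← h2]
    linear_combination (v * t + 1) * ht
  have h1e : 1 - p * p * (t * t) = q * q * (t * t) := by linear_combination -h1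
  refine ⟨p * p * (t * t), ?_, fun M hM haM => ?_, fun M hM hcM => ?_⟩
  · have h3 : p * p * (t * t) * (q * q * (t * t)) = 0 := by
      linear_combination (p * q * (t * t) * (t * t)) * hpq
    rw [← h1e] at h3
    linear_combination -h3
  · exact M.mul_mem_right _ (M.mul_mem_left _ (mem_of_le h hb hM hp0 hpa haM))
  · rw [h1e]
    exact M.mul_mem_right _ (M.mul_mem_left _ (mem_of_le h hb hM hq0 hqc hcM))

theorem exchange_of_positive (hq : HasPositiveUnits A) : IsExchange A := by
  have := isOrderedRing_of_isFRing h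
  intro a
  have hcop : Ideal.span {a * a} ⊔ Ideal.span {(1 - a) * (1 - a)} = ⊤ := by
    rw [Ideal.eq_top_iff_one]
    have h2 : (1 : A) = (3 - 2 * a) * (a * a) + (1 + 2 * a) * ((1 - a) * (1 - a)) := by ring
    have h3 : (3 - 2 * a) * (a * a) + (1 + 2 * a) * ((1 - a) * (1 - a)) ∈
        Ideal.span {a * a} ⊔ Ideal.span {(1 - a) * (1 - a)} := Ideal.add_mem _
      (Ideal.mem_sup_left (Ideal.mul_mem_left _ _ (Ideal.mem_span_singleton_self _)))
      (Ideal.mem_sup_right (Ideal.mul_mem_left _ _ (Ideal.mem_span_singleton_self _)))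
    rwa [← h2] at h3
  obtain ⟨w, hw, hu⟩ := hq (a * a) ((1 - a) * (1 - a)) (mul_self_nonneg' h a)
    (mul_self_nonneg' h (1 - a)) hcop
  obtain ⟨e, he, h1, h2⟩ := idem_of_sub h hb (mul_self_nonneg' h a)
    (mul_nonneg (mul_self_nonneg' h (1 - a)) hw) hu
  refine ⟨e, he, dvd_of_forall he fun M hM haM => h1 M hM (M.mul_mem_left _ haM),
    dvd_of_forall (by linear_combination he) fun M hM haM => h2 M hM ?_⟩
  exact M.mul_mem_right _ (M.mul_mem_left _ haM)

theorem add_unit {a b : A} (ha : 0 ≤ a) (hb' : 0 ≤ b)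
    (hab : Ideal.span {a} ⊔ Ideal.span {b} = ⊤) : IsUnit (a + b) := by
  refine isUnit_of_forall fun M hM hmem => ?_
  obtain ⟨h1, h2⟩ := mem_of_add_mem h hb hM ha hb' hmem
  apply hM.ne_top
  rw [eq_top_iff, ← hab]
  refine sup_le ?_ ?_
  · rw [Ideal.span_singleton_le_iff_mem]; exact h1
  · rw [Ideal.span_singleton_le_iff_mem]; exact h2

theorem power_odd {k : ℕ} (hk : Odd k) : HasPowerUnits A k := by
  intro a b ha hb' hab
  refine ⟨-1, ?_⟩
  rw [hk.neg_one_pow]
  have : a - b * -1 = a + b := by ring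
  rw [this]
  exact add_unit h hb ha hb' hab

theorem t2Space : T2Space (MaximalSpectrum A) := by
  have := isOrderedRing_of_isFRing h
  refine ⟨fun M N hMN => ?_⟩
  have htop : M.asIdeal ⊔ N.asIdeal = ⊤ :=
    M.isMaximal.coprime_of_ne N.isMaximal fun h' => hMN (MaximalSpectrum.ext h')
  rw [Ideal.eq_top_iff_one, Submodule.mem_sup] at htop
  obtain ⟨a, ha, b, hb', hab⟩ := htop
  set v : A := a * a - b * b with hv
  have hpq : (v ⊔ 0) * ((-v) ⊔ 0) = 0 := sup_mul_sup h v
  have hvpq : v = (v ⊔ 0) - ((-v) ⊔ 0) := sup_sub_sup h v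
  have hp0 : 0 ≤ v ⊔ 0 := le_sup_right
  have hq0 : 0 ≤ (-v) ⊔ 0 := le_sup_right
  have hpa : v ⊔ 0 ≤ a * a :=
    sup_le (sub_le_self _ (mul_self_nonneg' h b)) (mul_self_nonneg' h a)
  have hqb : (-v) ⊔ 0 ≤ b * b := by
    refine sup_le ?_ (mul_self_nonneg' h b)
    rw [hv, neg_sub]
    exact sub_le_self _ (mul_self_nonneg' h a)
  have haM : v ⊔ 0 ∈ M.asIdeal :=
    mem_of_le h hb M.isMaximal hp0 hpa (M.asIdeal.mul_mem_left _ ha)
  have hbN : (-v) ⊔ 0 ∈ N.asIdeal :=
    mem_of_le h hb N.isMaximal hq0 hqb (N.asIdeal.mul_mem_left _ hb')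
  refine ⟨dset ((-v) ⊔ 0), dset (v ⊔ 0), isOpen_dset _, isOpen_dset _, ?_, ?_, ?_⟩
  · intro hmem
    have h1 : b * b ∈ M.asIdeal := by
      have : b * b = (-v) ⊔ 0 - (v ⊔ 0) + a * a := by linear_combination -hvpq - hv
      rw [this]
      exact M.asIdeal.add_mem (M.asIdeal.sub_mem hmem haM) (M.asIdeal.mul_mem_left _ ha)
    refine one_not_mem M.isMaximal ?_
    rw [← hab]
    exact M.asIdeal.add_mem ha (mem_of_mul_self M.isMaximal h1)
  · intro hmem
    have h1 : a * a ∈ N.asIdeal := by
      have : a * a = (v ⊔ 0) - ((-v) ⊔ 0) + b * b := by linear_combination hvpq - hv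
      rw [this]
      exact N.asIdeal.add_mem (N.asIdeal.sub_mem hmem hbN) (N.asIdeal.mul_mem_left _ hb')
    refine one_not_mem N.isMaximal ?_
    rw [← hab]
    exact N.asIdeal.add_mem (mem_of_mul_self N.isMaximal h1) hb'
  · rw [Set.disjoint_left]
    intro L h1 h2
    have h3 : (v ⊔ 0) * ((-v) ⊔ 0) ∈ L.asIdeal := by
      rw [hpq]
      exact L.asIdeal.zero_mem
    exact (L.isMaximal.isPrime.mem_or_mem h3).elim h2 h1

theorem separate_of_separated [TotallySeparatedSpace (MaximalSpectrum A)] :
    IdempotentsSeparate A := by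
  intro M N hM hN hMN
  have hMN' : (⟨M, hM⟩ : MaximalSpectrum A) ≠ ⟨N, hN⟩ :=
    fun h' => hMN (congrArg MaximalSpectrum.asIdeal h')
  obtain ⟨U, hU, hMU, hNU⟩ := exists_isClopen_of_totally_separated hMN'
  -- elements of all the ideals in `S`
  let I : Set (MaximalSpectrum A) → Ideal A := fun S => ⨅ L ∈ S, L.asIdeal
  have hI : ∀ (S : Set (MaximalSpectrum A)) (x : A), x ∈ I S ↔ ∀ L ∈ S, x ∈ L.asIdeal := by
    intro S x
    simp only [I, Submodule.mem_iInf]
  have htop : I U ⊔ I Uᶜ = ⊤ := by
    by_contra hne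
    obtain ⟨L, hL, hle⟩ := Ideal.exists_le_maximal _ hne
    by_cases hLU : (⟨L, hL⟩ : MaximalSpectrum A) ∈ U
    · have h1 : (⟨L, hL⟩ : MaximalSpectrum A) ∈ Uᶜ :=
        mem_of_closed hU.isOpen.isClosed_compl fun x hx =>
          hle (Ideal.mem_sup_right ((hI _ x).2 hx))
      exact h1 hLU
    · exact hLU (mem_of_closed hU.isClosed fun x hx =>
          hle (Ideal.mem_sup_left ((hI _ x).2 hx)))
  rw [Ideal.eq_top_iff_one, Submodule.mem_sup] at htop
  obtain ⟨a, ha, b, hb', hab⟩ := htop
  rw [hI] at ha hb'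
  have hunit : IsUnit (a * a - b * b) := by
    refine isUnit_of_forall fun L hL hmem => ?_
    by_cases hLU : (⟨L, hL⟩ : MaximalSpectrum A) ∈ U
    · have h1 : a ∈ L := ha _ hLU
      have h2 : b * b ∈ L := by
        have : b * b = a * a - (a * a - b * b) := by ring
        rw [this]
        exact L.sub_mem (L.mul_mem_left _ h1) hmem
      exact one_not_mem hL (hab ▸ L.add_mem h1 (mem_of_mul_self hL h2))
    · have h1 : b ∈ L := hb' _ hLU
      have h2 : a * a ∈ L := by
        have : a * a = (a * a - b * b) + b * b := by ring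
        rw [this]
        exact L.add_mem hmem (L.mul_mem_left _ h1)
      exact one_not_mem hL (hab ▸ L.add_mem (mem_of_mul_self hL h2) h1)
  obtain ⟨e, he, h1, h2⟩ := idem_of_sub h hb (mul_self_nonneg' h a) (mul_self_nonneg' h b) hunit
  refine ⟨e, he, h1 M hM (M.mul_mem_left _ (ha _ hMU)), fun heN => ?_⟩
  exact not_both hN heN (h2 N hN (N.mul_mem_left _ (hb' _ hNU)))

omit h hb in
/-- The local-global property gives unit substitution with every positive exponent. -/
theorem power_of_lg (hLG : HasLG A) {k : ℕ} (hk : 0 < k) : HasPowerUnits A k := by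
  intro a b ha hb' hab
  obtain ⟨y, hy⟩ := hLG 1 le_rfl
    (MvPolynomial.C a - MvPolynomial.C b * (MvPolynomial.X 0) ^ k) (by
      intro M hM
      by_cases haM : a ∈ M
      · refine ⟨fun _ => 1, ?_⟩
        have h1 : a - b ∉ M := by
          intro h1
          have hbM : b ∈ M := by
            have := M.sub_mem haM h1
            simpa using this
          apply hM.ne_top
          rw [eq_top_iff, ← hab]
          refine sup_le ?_ ?_
          · rw [Ideal.span_singleton_le_iff_mem]; exact haM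
          · rw [Ideal.span_singleton_le_iff_mem]; exact hbM
        have h2 := IsLocalization.map_units (Localization.AtPrime M)
          (⟨a - b, h1⟩ : M.primeCompl)
        simpa using h2
      · refine ⟨fun _ => 0, ?_⟩
        have h2 := IsLocalization.map_units (Localization.AtPrime M)
          (⟨a, haM⟩ : M.primeCompl)
        simpa [hk.ne'] using h2)
  refine ⟨y 0, ?_⟩
  simpa using hy

omit hb in
theorem positive_of_power {k : ℕ} (hk : Even k) (hq : HasPowerUnits A k) :
    HasPositiveUnits A := by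
  intro a b ha hb' hab
  obtain ⟨w, hw⟩ := hq a b ha hb' hab
  obtain ⟨j, rfl⟩ := hk
  refine ⟨w ^ (j + j), ?_, hw⟩
  rw [pow_add]
  exact mul_self_nonneg' h _

end fring

/-- **The local-global property of f-rings with bounded inversion.**  Nilpotent elements are
allowed.  In particular the local-global property and condition (b) are equivalent. -/
theorem result (A : Type u) [CommRing A] [Lattice A] (h : IsFRing A)
    (hb : BoundedInversion A) :
    List.TFAE [HasLG A, HasQuadraticUnits A, ∃ k, Even k ∧ 0 < k ∧ HasPowerUnits A k,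
      ∀ k, 0 < k → HasPowerUnits A k, HasPositiveUnits A, IsExchange A, IsClean A,
      IdempotentsSeparate A, TotallyDisconnectedSpace (MaximalSpectrum A)] ∧
    ∀ k, Odd k → HasPowerUnits A k := by
  refine ⟨?_, fun k hk => power_odd h hb hk⟩
  have := t2Space h hb
  tfae_have 1 → 4 := fun h1 k hk => power_of_lg h1 hk
  tfae_have 4 → 2 := fun h1 => h1 2 (by norm_num)
  tfae_have 2 → 3 := fun h1 => ⟨2, by decide, by norm_num, h1⟩
  tfae_have 3 → 5 := fun ⟨_, h1, _, h2⟩ => positive_of_power h h1 h2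
  tfae_have 5 → 6 := exchange_of_positive h hb
  tfae_have 6 → 1 := lg_of_exchange
  tfae_have 6 → 7 := clean_of_exchange
  tfae_have 7 → 6 := exchange_of_clean
  tfae_have 6 → 8 := separate_of_exchange
  tfae_have 8 → 6 := exchange_of_separate
  tfae_have 8 → 9 := fun h1 => loc_compact_t2_tot_disc_iff_tot_sep.2 (separated_of_separate h1)
  tfae_have 9 → 8 := fun h1 => by
    have := loc_compact_t2_tot_disc_iff_tot_sep.1 h1
    exact separate_of_separated h hb
  tfae_finish

end Pool.Agent.Results.MP_b9b46b_al.CleanSpectrum
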